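import Mathlib

set_option autoImplicit false

namespace Pool.Agent.Results.MP_03cbb9_co.Counter

/-- A neighbor-locating colouring of `G` with `k` colours. -/
def IsNL {V : Type} (G : SimpleGraph V) (k : ℕ) (c : V → Fin k) : Prop :=
  (∀ u v, G.Adj u v → c u ≠ c v) ∧
  (∀ u v, u ≠ v → c u = c v → c '' G.neighborSet u ≠ c '' G.neighborSet v)

/-- The neighbor-locating chromatic number: the least `k` admitting such a colouring. -/
noncomputable def chiNL {V : Type} (G : SimpleGraph V) : ℕ :=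
  sInf {k : ℕ | ∃ c : V → Fin k, IsNL G k c}

/-- The Mycielski graph: `some (inl u)` is `u`, `some (inr u)` is `u'`, `none` is `w`. -/
def myc {V : Type} (G : SimpleGraph V) : SimpleGraph (Option (V ⊕ V)) where
  Adj x y :=
    match x, y with
    | some (Sum.inl u), some (Sum.inl v) => G.Adj u v
    | some (Sum.inl u), some (Sum.inr v) => G.Adj u v
    | some (Sum.inr u), some (Sum.inl v) => G.Adj u v
    | some (Sum.inr _), some (Sum.inr _) => False
    | some (Sum.inl _), none => False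
    | none, some (Sum.inl _) => False
    | some (Sum.inr _), none => True
    | none, some (Sum.inr _) => True
    | none, none => False
  symm := ⟨by
    rintro (_ | _ | _) (_ | _ | _) h <;> first | exact h | exact G.adj_symm h⟩
  loopless := ⟨by
    rintro (_ | _ | _) h
    · exact h
    · exact G.irrefl h
    · exact h⟩

def eb : Fin 7 → Fin 7 → Bool := fun i j =>
  (i.val, j.val) ∈ [(1, 3), (2, 3), (1, 4), (2, 4), (0, 5), (3, 5), (4, 5), (0, 6), (1, 6), (2, 6)]

def G0 : SimpleGraph (Fin 7) := SimpleGraph.fromRel (fun i j => eb i j = true)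

instance : DecidableRel G0.Adj := fun i j => by
  unfold G0; rw [SimpleGraph.fromRel_adj]; infer_instance

instance : DecidableRel (myc G0).Adj := fun x y => by
  rcases x with _ | x | x <;> rcases y with _ | y | y <;> unfold myc <;> dsimp only <;> infer_instance

theorem image_ne_iff {V : Type} (G : SimpleGraph V) {k : ℕ} (c : V → Fin k) (u v : V) :
    c '' G.neighborSet u ≠ c '' G.neighborSet v ↔
      ¬ ∀ a : Fin k, (∃ x, G.Adj u x ∧ c x = a) ↔ (∃ x, G.Adj v x ∧ c x = a) := by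
  rw [Ne, Set.ext_iff]
  simp [Set.mem_image]

def cG : Fin 7 → Fin 5 := ![4, 0, 1, 2, 3, 0, 2]

def cM : Option (Fin 7 ⊕ Fin 7) → Fin 5
  | none => 0
  | some (Sum.inl i) => ![3, 1, 2, 0, 3, 1, 0] i
  | some (Sum.inr i) => ![2, 1, 2, 3, 4, 4, 4] i

theorem nl_G : IsNL G0 5 cG := by
  refine ⟨by decide +kernel, ?_⟩
  simp only [image_ne_iff]
  decide +kernel

theorem nl_M : IsNL (myc G0) 5 cM := by
  refine ⟨by decide +kernel, ?_⟩
  simp only [image_ne_iff]
  decide +kernel

theorem IsNL.mono {V : Type} {G : SimpleGraph V} {k l : ℕ} (h : k ≤ l) {c : V → Fin k}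
    (hc : IsNL G k c) : IsNL G l (fun v => Fin.castLE h (c v)) := by
  refine ⟨fun u v huv e => hc.1 u v huv (Fin.castLE_injective h e), fun u v huv e e' => ?_⟩
  refine hc.2 u v huv (Fin.castLE_injective h e) ?_
  apply (Set.image_injective.mpr (Fin.castLE_injective h))
  simpa [Set.image_image] using e'

set_option synthInstance.maxSize 4096 in
theorem not_four_aux : ∀ c1 c2 : Fin 4, c1 ≠ c2 → ∀ c3 : Fin 4, c1 ≠ c3 → c2 ≠ c3 →
    ∀ c4 : Fin 4, c1 ≠ c4 → c2 ≠ c4 → c3 ≠ c4 → ∀ c5 : Fin 4, c3 ≠ c5 → c4 ≠ c5 →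
    ∀ c6 : Fin 4, c1 ≠ c6 → c2 ≠ c6 → ∀ c0 : Fin 4,
    (c1 = c5 → ¬ ∀ a, (a = c3 ∨ a = c4 ∨ a = c6) ↔ (a = c0 ∨ a = c3 ∨ a = c4)) →
    (c2 = c5 → ¬ ∀ a, (a = c3 ∨ a = c4 ∨ a = c6) ↔ (a = c0 ∨ a = c3 ∨ a = c4)) →
    (c3 = c6 → ¬ ∀ a, (a = c1 ∨ a = c2 ∨ a = c5) ↔ (a = c0 ∨ a = c1 ∨ a = c2)) →
    (c4 = c6 → ¬ ∀ a, (a = c1 ∨ a = c2 ∨ a = c5) ↔ (a = c0 ∨ a = c1 ∨ a = c2)) → False := by
  decide +kernel

theorem nb1 : G0.neighborSet 1 = {3, 4, 6} := by
  ext x; simp only [SimpleGraph.mem_neighborSet, Set.mem_insert_iff, Set.mem_singleton_iff]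
  revert x; decide +kernel
theorem nb2 : G0.neighborSet 2 = {3, 4, 6} := by
  ext x; simp only [SimpleGraph.mem_neighborSet, Set.mem_insert_iff, Set.mem_singleton_iff]
  revert x; decide +kernel
theorem nb3 : G0.neighborSet 3 = {1, 2, 5} := by
  ext x; simp only [SimpleGraph.mem_neighborSet, Set.mem_insert_iff, Set.mem_singleton_iff]
  revert x; decide +kernel
theorem nb4 : G0.neighborSet 4 = {1, 2, 5} := by
  ext x; simp only [SimpleGraph.mem_neighborSet, Set.mem_insert_iff, Set.mem_singleton_iff]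
  revert x; decide +kernel
theorem nb5 : G0.neighborSet 5 = {0, 3, 4} := by
  ext x; simp only [SimpleGraph.mem_neighborSet, Set.mem_insert_iff, Set.mem_singleton_iff]
  revert x; decide +kernel
theorem nb6 : G0.neighborSet 6 = {0, 1, 2} := by
  ext x; simp only [SimpleGraph.mem_neighborSet, Set.mem_insert_iff, Set.mem_singleton_iff]
  revert x; decide +kernel

theorem not_four (c : Fin 7 → Fin 4) : ¬ IsNL G0 4 c := by
  rintro ⟨h1, h2⟩
  have key : ∀ u v x y z x' y' z' : Fin 7, u ≠ v → G0.neighborSet u = {x, y, z} →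
      G0.neighborSet v = {x', y', z'} → c u = c v →
      ¬ ∀ a, (a = c x ∨ a = c y ∨ a = c z) ↔ (a = c x' ∨ a = c y' ∨ a = c z') := by
    intro u v x y z x' y' z' huv hu hv e H
    apply h2 u v huv e
    rw [hu, hv]
    ext a
    simpa [Set.image_insert_eq] using H a
  refine not_four_aux (c 1) (c 2) ?_ (c 3) (h1 _ _ (by decide +kernel)) (h1 _ _ (by decide +kernel))
    (c 4) (h1 _ _ (by decide +kernel)) (h1 _ _ (by decide +kernel)) ?_
    (c 5) (h1 _ _ (by decide +kernel)) (h1 _ _ (by decide +kernel))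
    (c 6) (h1 _ _ (by decide +kernel)) (h1 _ _ (by decide +kernel)) (c 0)
    (key 1 5 _ _ _ _ _ _ (by decide) nb1 nb5) (key 2 5 _ _ _ _ _ _ (by decide) nb2 nb5)
    (key 3 6 _ _ _ _ _ _ (by decide) nb3 nb6) (key 4 6 _ _ _ _ _ _ (by decide) nb4 nb6)
  · exact fun e => key 1 2 _ _ _ _ _ _ (by decide) nb1 nb2 e (fun _ => Iff.rfl)
  · exact fun e => key 3 4 _ _ _ _ _ _ (by decide) nb3 nb4 e (fun _ => Iff.rfl)

theorem chi_G : chiNL G0 = 5 := by
  apply le_antisymm
  · exact Nat.sInf_le ⟨cG, nl_G⟩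
  · refine le_csInf ⟨5, (⟨cG, nl_G⟩ : ∃ c : Fin 7 → Fin 5, IsNL G0 5 c)⟩ ?_
    rintro k ⟨c, hc⟩
    by_contra hk
    exact not_four _ (hc.mono (by omega : k ≤ 4))

theorem conn : G0.Connected := by
  have h : ∀ v : Fin 7, G0.Reachable 0 v := by
    have a05 : G0.Adj 0 5 := by decide +kernel
    have a06 : G0.Adj 0 6 := by decide +kernel
    have a53 : G0.Adj 5 3 := by decide +kernel
    have a54 : G0.Adj 5 4 := by decide +kernel
    have a61 : G0.Adj 6 1 := by decide +kernel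
    have a62 : G0.Adj 6 2 := by decide +kernel
    intro v
    fin_cases v
    · exact SimpleGraph.Reachable.refl _
    · exact a06.reachable.trans a61.reachable
    · exact a06.reachable.trans a62.reachable
    · exact a05.reachable.trans a53.reachable
    · exact a05.reachable.trans a54.reachable
    · exact a05.reachable
    · exact a06.reachable
  exact ⟨fun u v => (h u).symm.trans (h v)⟩

theorem result :
    ∃ (n : ℕ) (G : SimpleGraph (Fin n)), G.Connected ∧ chiNL (myc G) ≠ chiNL G + 1 := by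
  refine ⟨7, G0, conn, ?_⟩
  have h : chiNL (myc G0) ≤ 5 := Nat.sInf_le ⟨cM, nl_M⟩
  rw [chi_G]
  omega

end Pool.Agent.Results.MP_03cbb9_co.Counter
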